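import Pool.Agent.W385.HZ.Final

/-!
# The abscissa of convergence for the genera with exactly one Hurwitz surface is at least `1/6`

Let `Δ` be the (2,3,7) triangle group, `K₀` the kernel of its map onto `PSL(2,7)` (the surface group
of Klein's quartic) and `p > 168` a prime with `p ≡ 3` or `5 (mod 7)`. Then `K₀' K₀^p` is the only
normal subgroup of `Δ` of index `168 p^6`, and it is torsion-free. So `1 + 2 p^6` is a genus with
exactly one Hurwitz surface, and the sum of `g ^ (-s)` over these genera diverges for `s < 1/6`.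

Idea: the abelianisation of `K₀` is generated by the conjugates of one element `k` by the powers of
the element `z` of order 7, and the product of the 7 conjugates of `k` is `1`; hence
`K₀ / K₀' K₀^p` is a quotient of `𝔽_p[X] / (1 + X + ⋯ + X⁶)`, which is a field. A normal subgroup of
index `168 p^6` lies in a normal subgroup of index 168 (Sylow), and the only such subgroup is `K₀`.
Torsion-freeness of `K₀`: the geometric representation of the Coxeter group of type (2,3,7) is
faithful and maps `K₀` into the congruence subgroup modulo the prime over 7 of `ℤ[2 cos (π/7)]`.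
-/

set_option autoImplicit false

namespace Pool.Agent.Results.MP_af40fb_al.LowerBoundSixth

/-- Relators of the (2,3,7) triangle group: `x² , y³ , (x y)⁷`. -/
def rels : Set (FreeGroup (Fin 2)) :=
  {FreeGroup.of 0 ^ 2, FreeGroup.of 1 ^ 3, (FreeGroup.of 0 * FreeGroup.of 1) ^ 7}

/-- The (2,3,7) triangle group `Δ = ⟨x, y | x² = y³ = (x y)⁷ = 1⟩`. -/
abbrev Delta : Type := PresentedGroup rels

/-- `h g`: the number of Hurwitz surfaces of genus `g`, that is, the number of torsion-free normal
subgroups of `Δ` of index `84 (g - 1)`. -/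
noncomputable def h (g : ℕ) : ℕ :=
  Nat.card {K : Subgroup Delta // K.Normal ∧ (∀ a ∈ K, IsOfFinOrder a → a = 1) ∧
    K.index = 84 * (g - 1)}

/-- The set of genera `g ≥ 2` with exactly one Hurwitz surface. -/
def U : Set ℕ := {g | 2 ≤ g ∧ h g = 1}

/-- The abscissa of convergence: the infimum (in `[-∞, ∞]`) of the real `s` for which the sum of
`g ^ (-s)` over `g ∈ U` converges. -/
noncomputable def s0 : EReal :=
  sInf {t : EReal | ∃ s : ℝ, t = (s : EReal) ∧ Summable fun g : U => ((g : ℕ) : ℝ) ^ (-s)}

/-- The key family: `1 + 2 p^6` is in `U` for all primes `p > 168`, `p ≡ 3, 5 (mod 7)`. -/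
theorem mem_U {p : ℕ} (hp : p.Prime) (h7 : p % 7 = 3 ∨ p % 7 = 5) (hbig : 168 < p) :
    2 * p ^ 6 + 1 ∈ U := by
  have hpos : 0 < p ^ 6 := pow_pos hp.pos 6
  refine ⟨by omega, ?_⟩
  have h1 : 84 * (2 * p ^ 6 + 1 - 1) = 168 * p ^ 6 := by omega
  unfold h
  rw [h1]
  exact W385.HZ.unique_surface hp h7 hbig

/-- The abscissa of convergence `s₀` of `∑_{g ∈ U} g ^ (-s)` is at least `1/6`. -/
theorem result : ((1 / 6 : ℝ) : EReal) ≤ s0 := by
  apply le_sInf
  rintro _ ⟨s, rfl, hs⟩
  rw [EReal.coe_le_coe_iff]
  by_contra hlt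
  push Not at hlt
  refine W385.HZ.not_summable_of_primes U 168 (fun p hp h7 hbig => mem_U hp (Or.inl h7) hbig) s
    hlt ?_
  exact summable_subtype_iff_indicator.mp hs

end Pool.Agent.Results.MP_af40fb_al.LowerBoundSixth
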